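import Mathlib
import Pool.Agent.D0H61.AB.Stm2

set_option autoImplicit false

/-! # Project AB (helper61), counting half of FAM2 -/

namespace Pool.Agent.D0H12.AB

open Finset
open Pool.Agent.D0H61.AB (rad S_SIMP)

/-- families of sets with `m i` elements in the block `P i` -/
theorem famU (P : ℕ → Finset ℕ) (m : ℕ → ℕ) (v : ℕ → ℝ) (I : Finset ℕ) :
    (∀ i ∈ I, ∀ j ∈ I, i ≠ j → Disjoint (P i) (P j)) → ∃ 𝒰 : Finset (Finset ℕ),
      𝒰.card = ∏ i ∈ I, (P i).card.choose (m i) ∧ ∀ U ∈ 𝒰, (∀ p ∈ U, ∃ i ∈ I, p ∈ P i) ∧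
        U.card = ∑ i ∈ I, m i ∧
        (∀ g : ℕ → ℝ, (∀ i ∈ I, ∀ p ∈ P i, 0 < g p ∧ g p ≤ v i) →
          ∑ p ∈ U, g p ≤ ∑ i ∈ I, (m i : ℝ) * v i ∧ ∏ p ∈ U, g p ≤ ∏ i ∈ I, v i ^ m i) := by
  classical
  induction I using Finset.induction_on with
  | empty =>
    intro _
    refine ⟨{∅}, by simp, ?_⟩
    intro U hU
    rw [mem_singleton] at hU
    subst hU
    refine ⟨fun p hp => absurd hp (notMem_empty p), by simp, fun g _ => ⟨by simp, by simp⟩⟩
  | @insert a I ha ih =>
    intro hd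
    obtain ⟨𝒰, h1, h2⟩ := ih (fun i hi j hj hij => hd i (mem_insert_of_mem hi) j (mem_insert_of_mem hj) hij)
    have hda : ∀ U ∈ 𝒰, Disjoint U (P a) := by
      intro U hU
      rw [Finset.disjoint_left]
      intro p hp hpa
      obtain ⟨i, hi, hpi⟩ := (h2 U hU).1 p hp
      exact Finset.disjoint_left.1 (hd i (mem_insert_of_mem hi) a (mem_insert_self a I)
        (fun h => ha (h ▸ hi))) hpi hpa
    refine ⟨((P a).powersetCard (m a) ×ˢ 𝒰).image (fun x => x.1 ∪ x.2), ?_, ?_⟩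
    · rw [card_image_of_injOn, card_product, card_powersetCard, h1, prod_insert ha]
      rintro ⟨A, U⟩ hx ⟨A', U'⟩ hx' he
      have hx1 := mem_product.1 (mem_coe.1 hx)
      have hx1' := mem_product.1 (mem_coe.1 hx')
      have hA := (mem_powersetCard.1 hx1.1).1
      have hA' := (mem_powersetCard.1 hx1'.1).1
      have hU := Finset.disjoint_left.1 (hda U hx1.2)
      have hU' := Finset.disjoint_left.1 (hda U' hx1'.2)
      have he' : ∀ p, (p ∈ A ∨ p ∈ U) ↔ (p ∈ A' ∨ p ∈ U') := by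
        intro p
        have h3 : (p ∈ A ∪ U) ↔ (p ∈ A' ∪ U') := by
          have h4 : A ∪ U = A' ∪ U' := he
          rw [h4]
        rwa [mem_union, mem_union] at h3
      have e1 : A = A' := by
        ext p
        constructor
        · intro hp
          rcases (he' p).1 (Or.inl hp) with h | h
          · exact h
          · exact absurd (hA hp) (hU' h)
        · intro hp
          rcases (he' p).2 (Or.inl hp) with h | h
          · exact h
          · exact absurd (hA' hp) (hU h)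
      have e2 : U = U' := by
        ext p
        constructor
        · intro hp
          rcases (he' p).1 (Or.inr hp) with h | h
          · exact absurd (hA' h) (hU hp)
          · exact h
        · intro hp
          rcases (he' p).2 (Or.inr hp) with h | h
          · exact absurd (hA h) (hU' hp)
          · exact h
      rw [e1, e2]
    · intro W hW
      obtain ⟨⟨A, U⟩, hx, rfl⟩ := mem_image.1 hW
      have hx1 := mem_product.1 hx
      obtain ⟨hA, hAc⟩ := mem_powersetCard.1 hx1.1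
      obtain ⟨k1, k2, k3⟩ := h2 U hx1.2
      have hAU : Disjoint A U := by
        rw [Finset.disjoint_left]
        intro p hpA hpU
        exact Finset.disjoint_left.1 (hda U hx1.2) hpU (hA hpA)
      refine ⟨?_, ?_, ?_⟩
      · intro p hp
        rcases mem_union.1 hp with h | h
        · exact ⟨a, mem_insert_self a I, hA h⟩
        · obtain ⟨i, hi, hpi⟩ := k1 p h
          exact ⟨i, mem_insert_of_mem hi, hpi⟩
      · show (A ∪ U).card = _
        rw [card_union_of_disjoint hAU, sum_insert ha, k2]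
        exact congrArg (· + ∑ i ∈ I, m i) hAc
      · intro g hg
        obtain ⟨q1, q2⟩ := k3 g (fun i hi p hp => hg i (mem_insert_of_mem hi) p hp)
        have hga : ∀ p ∈ A, 0 < g p ∧ g p ≤ v a := fun p hp => hg a (mem_insert_self a I) p (hA hp)
        have hgU : ∀ p ∈ U, 0 < g p := by
          intro p hp
          obtain ⟨i, hi, hpi⟩ := k1 p hp
          exact (hg i (mem_insert_of_mem hi) p hpi).1
        show ∑ p ∈ A ∪ U, g p ≤ _ ∧ ∏ p ∈ A ∪ U, g p ≤ _
        rw [sum_union hAU, prod_union hAU, sum_insert ha, prod_insert ha]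
        have s1 : ∑ p ∈ A, g p ≤ (m a : ℝ) * v a := by
          have := Finset.sum_le_card_nsmul A g (v a) (fun p hp => (hga p hp).2)
          rw [nsmul_eq_mul] at this
          rwa [hAc] at this
        have s2 : ∏ p ∈ A, g p ≤ v a ^ m a := by
          have : ∏ p ∈ A, g p ≤ ∏ _p ∈ A, v a :=
            prod_le_prod (fun p hp => (hga p hp).1.le) (fun p hp => (hga p hp).2)
          rw [prod_const] at this
          rwa [hAc] at this
        refine ⟨add_le_add s1 q1, ?_⟩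
        have s3 : 0 ≤ ∏ p ∈ A, g p := prod_nonneg (fun p hp => (hga p hp).1.le)
        have s4 : 0 ≤ ∏ p ∈ U, g p := prod_nonneg (fun p hp => (hgU p hp).le)
        exact mul_le_mul s2 q2 s4 (s3.trans s2)

theorem fact_prod (U : Finset ℕ) (hU : ∀ p ∈ U, p.Prime) (e : ℕ → ℕ) (q : ℕ) :
    (∏ p ∈ U, p ^ e p).factorization q = if q ∈ U then e q else 0 := by
  classical
  rw [Nat.factorization_prod (fun p hp => pow_ne_zero _ (hU p hp).ne_zero)]
  rw [Finsupp.finsetSum_apply]
  have h1 : ∀ p ∈ U, (p ^ e p).factorization q = if p = q then e p else 0 := by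
    intro p hp
    rw [(hU p hp).factorization_pow, Finsupp.single_apply]
  rw [sum_congr rfl h1]
  rw [Finset.sum_ite_eq' U q (fun p => e p)]

/-- **Counting half of FAM2.** -/
theorem fam2c (hS : S_SIMP) (I : Finset ℕ) (P : ℕ → Finset ℕ) (v : ℕ → ℝ) (m : ℕ → ℕ) (L : ℝ)
    (hdisj : ∀ i ∈ I, ∀ j ∈ I, i ≠ j → Disjoint (P i) (P j)) (hprime : ∀ i ∈ I, ∀ p ∈ P i, p.Prime)
    (hlog : ∀ i ∈ I, ∀ p ∈ P i, Real.log p ≤ v i) (hv0 : ∀ i ∈ I, 0 < v i)
    (hL : 8 * ∑ i ∈ I, (m i : ℝ) * v i ≤ L) :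
    ∃ B : Finset ℕ, (∏ i ∈ I, ((P i).card.choose (m i) : ℝ)) *
        ((L - 8 * ∑ i ∈ I, (m i : ℝ) * v i) ^ (∑ i ∈ I, m i) /
          (((∑ i ∈ I, m i).factorial : ℝ) * ∏ i ∈ I, v i ^ m i)) ≤ B.card ∧
      ∀ b ∈ B, 0 < b ∧ b.primeFactors.card = ∑ i ∈ I, m i ∧
        (∀ p ∈ b.primeFactors, (∃ i ∈ I, p ∈ P i) ∧ 8 ≤ b.factorization p) ∧
        (rad b : ℝ) ≤ Real.exp (∑ i ∈ I, (m i : ℝ) * v i) ∧ Real.log b ≤ L := by
  classical
  obtain ⟨𝒰, h1, h2⟩ := famU P m v I hdisj
  have hpr : ∀ U ∈ 𝒰, ∀ p ∈ U, p.Prime := by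
    intro U hU p hp
    obtain ⟨i, hi, hpi⟩ := (h2 U hU).1 p hp
    exact hprime i hi p hpi
  have hlp : ∀ p : ℕ, p.Prime → 0 < Real.log p := fun p hp => Real.log_pos (by exact_mod_cast hp.one_lt)
  have hg : ∀ i ∈ I, ∀ p ∈ P i, 0 < Real.log p ∧ Real.log p ≤ v i :=
    fun i hi p hp => ⟨hlp p (hprime i hi p hp), hlog i hi p hp⟩
  set M : ℝ := L - 8 * ∑ i ∈ I, (m i : ℝ) * v i with hM
  have hM0 : 0 ≤ M := by rw [hM]; linarith
  have hF : ∀ U : Finset ℕ, ∃ F : Finset (ℕ → ℕ), U ∈ 𝒰 →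
      (M ^ U.card / (U.card.factorial * ∏ i ∈ U, Real.log i) ≤ F.card ∧
        ∀ f ∈ F, (∀ i, i ∉ U → f i = 0) ∧ ∑ i ∈ U, (f i : ℝ) * Real.log i ≤ M) := by
    intro U
    by_cases hU : U ∈ 𝒰
    · obtain ⟨F, hF1, hF2⟩ := hS ℕ U (fun p => Real.log p) M (fun p hp => hlp p (hpr U hU p hp)) hM0
      exact ⟨F, fun _ => ⟨hF1, hF2⟩⟩
    · exact ⟨∅, fun h => absurd h hU⟩
  choose F hF using hF
  -- the factorisation
  have hfac : ∀ U ∈ 𝒰, ∀ f : ℕ → ℕ, ∀ q, (∏ p ∈ U, p ^ (8 + f p)).factorization q =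
      if q ∈ U then 8 + f q else 0 := fun U hU f q => fact_prod U (hpr U hU) (fun p => 8 + f p) q
  have hpf : ∀ U ∈ 𝒰, ∀ f : ℕ → ℕ, (∏ p ∈ U, p ^ (8 + f p)).primeFactors = U := by
    intro U hU f
    ext q
    rw [← Nat.support_factorization, Finsupp.mem_support_iff, hfac U hU f q]
    by_cases hq : q ∈ U
    · simp [hq]
    · simp [hq]
  have hinj : ∀ U ∈ 𝒰, ∀ f ∈ F U, ∀ f' ∈ F U,
      ∏ p ∈ U, p ^ (8 + f p) = ∏ p ∈ U, p ^ (8 + f' p) → f = f' := by
    intro U hU f hf f' hf' he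
    funext q
    by_cases hq : q ∈ U
    · have e1 := hfac U hU f q
      have e2 := hfac U hU f' q
      rw [he, e2, if_pos hq, if_pos hq] at e1
      omega
    · rw [((hF U hU).2 f hf).1 q hq, ((hF U hU).2 f' hf').1 q hq]
  refine ⟨𝒰.biUnion (fun U => (F U).image (fun f => ∏ p ∈ U, p ^ (8 + f p))), ?_, ?_⟩
  · rw [card_biUnion]
    · have h3 : ∀ U ∈ 𝒰, M ^ (∑ i ∈ I, m i) / (((∑ i ∈ I, m i).factorial : ℝ) * ∏ i ∈ I, v i ^ m i) ≤
          (((F U).image (fun f => ∏ p ∈ U, p ^ (8 + f p))).card : ℝ) := by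
        intro U hU
        rw [card_image_of_injOn (fun f hf f' hf' he => hinj U hU f hf f' hf' he)]
        refine le_trans ?_ (hF U hU).1
        obtain ⟨k1, k2, k3⟩ := h2 U hU
        rw [k2]
        apply div_le_div_of_nonneg_left (by positivity)
        · apply mul_pos (by exact_mod_cast Nat.factorial_pos _)
          exact prod_pos (fun p hp => hlp p (hpr U hU p hp))
        · apply mul_le_mul_of_nonneg_left _ (by positivity)
          exact (k3 (fun p => Real.log p) hg).2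
      have h4 := Finset.card_nsmul_le_sum 𝒰 _ _ h3
      rw [nsmul_eq_mul, h1] at h4
      push_cast at h4 ⊢
      exact h4
    · intro U hU U' hU' hne
      rw [Function.onFun, Finset.disjoint_left]
      intro b hb hb'
      obtain ⟨f, _, rfl⟩ := mem_image.1 hb
      obtain ⟨f', _, he⟩ := mem_image.1 hb'
      apply hne
      rw [← hpf U hU f, ← he, hpf U' hU' f']
  · intro b hb
    obtain ⟨U, hU, hb⟩ := mem_biUnion.1 hb
    obtain ⟨f, hf, rfl⟩ := mem_image.1 hb
    obtain ⟨k1, k2, k3⟩ := h2 U hU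
    have hsum := (k3 (fun p => Real.log p) hg).1
    refine ⟨?_, ?_, ?_, ?_, ?_⟩
    · exact prod_pos (fun p hp => pow_pos (hpr U hU p hp).pos _)
    · rw [hpf U hU f, k2]
    · intro p hp
      rw [hpf U hU f] at hp
      refine ⟨k1 p hp, ?_⟩
      rw [hfac U hU f p, if_pos hp]
      omega
    · unfold rad
      rw [hpf U hU f]
      have h5 : ((∏ p ∈ U, p : ℕ) : ℝ) = Real.exp (∑ p ∈ U, Real.log p) := by
        rw [Real.exp_sum]
        push_cast
        apply prod_congr rfl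
        intro p hp
        rw [Real.exp_log (by exact_mod_cast (hpr U hU p hp).pos)]
      rw [h5]
      exact Real.exp_le_exp.2 hsum
    · have h6 : Real.log ((∏ p ∈ U, p ^ (8 + f p) : ℕ) : ℝ) =
          8 * ∑ p ∈ U, Real.log p + ∑ p ∈ U, (f p : ℝ) * Real.log p := by
        push_cast
        rw [Real.log_prod (fun p hp => pow_ne_zero _ (by exact_mod_cast (hpr U hU p hp).ne_zero)),
          mul_sum, ← sum_add_distrib]
        apply sum_congr rfl
        intro p hp
        rw [Real.log_pow]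
        push_cast
        ring
      rw [h6]
      have h7 := ((hF U hU).2 f hf).2
      rw [hM] at h7
      linarith

end Pool.Agent.D0H12.AB
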