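import Mathlib
import Pool.Agent.D0H12.AB.Fam2c

set_option autoImplicit false

/-! # Project AB (helper61), FAM2 from the analytic half (helper18) and the counting half -/

namespace Pool.Agent.D0H12.AB

open Finset
open Pool.Agent.D0H61.AB (rad S_SIMP S_PNTB S_FAM2 PB)

/-- the analytic half (helper18) -/
def S_ANA : Prop := ∀ ε : ℝ, 0 < ε → ∃ η : ℝ, 0 < η ∧ η < 1 ∧ ∃ l₀ : ℕ, 1 ≤ l₀ ∧ ∀ l : ℕ, l₀ ≤ l →
  ∃ (I : ℕ) (m : ℕ → ℕ) (n : ℕ) (S : ℝ), n = ∑ i ∈ range I, m i ∧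
    S = ∑ i ∈ range I, (m i : ℝ) * (l + η * (i + 1)) ∧ (n : ℝ) ≤ Real.exp l / l ∧ 0 ≤ S ∧
    0 ≤ Real.exp (2 * l) / l - 8 * S ∧
    Real.exp S * Real.exp ((2 - ε) * (Real.exp l / l)) + 1 ≤ Real.exp (ε * (Real.exp (2 * l) / l)) ∧
    ∀ π : ℕ → ℕ, (∀ i < I, (1 - 2 * η) * (η * Real.exp (l + η * (i + 1)) / (l + η * (i + 1))) ≤ π i) →
      (∀ i < I, m i ≤ π i) ∧ Real.exp S * Real.exp ((2 - ε) * (Real.exp l / l)) ≤
        (∏ i ∈ range I, ((π i).choose (m i) : ℝ)) * ((Real.exp (2 * l) / l - 8 * S) ^ n /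
          (n.factorial * ∏ i ∈ range I, (l + η * (i + 1)) ^ m i))

theorem PB_mem {u η : ℝ} {p : ℕ} (hp : p ∈ PB u η) : p.Prime ∧ Real.exp u < p ∧ (p : ℝ) ≤ Real.exp (u + η) := by
  unfold PB at hp
  rw [mem_filter, mem_Icc] at hp
  exact ⟨hp.2.1, hp.2.2, (Nat.le_floor_iff (Real.exp_pos _).le).1 hp.1.2⟩

/-- **FAM2 from the two halves.** -/
theorem glue : S_ANA → S_PNTB → S_SIMP → S_FAM2 := by
  classical
  intro hA hP hS ε hε
  obtain ⟨η, hη0, hη1, l₁, hl₁, hA⟩ := hA ε hε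
  obtain ⟨u₀, hu₀, hP⟩ := hP η hη0 hη1
  obtain ⟨l₂, hl₂⟩ := exists_nat_ge u₀
  refine ⟨max l₁ l₂, le_trans hl₁ (le_max_left _ _), fun l hl => ?_⟩
  have hl1 : l₁ ≤ l := (le_max_left _ _).trans hl
  have hl2 : l₂ ≤ l := (le_max_right _ _).trans hl
  have hlR : (1 : ℝ) ≤ l := by exact_mod_cast hl₁.trans hl1
  have hlu : u₀ ≤ l := hl₂.trans (by exact_mod_cast hl2)
  obtain ⟨I, m, n, S, hn, hSdef, hnl, hS0, hL0, hup, hπ⟩ := hA l hl1
  obtain ⟨-, hlow⟩ := hπ (fun i => (PB (l + η * i) η).card) (by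
    intro i _
    have h1 := hP (l + η * i) (by
      have : 0 ≤ η * (i : ℝ) := by positivity
      linarith)
    have e : (l : ℝ) + η * i + η = l + η * (i + 1) := by ring
    rw [e] at h1
    exact h1)
  -- the counting half
  have hdisj : ∀ i ∈ range I, ∀ j ∈ range I, i ≠ j → Disjoint (PB (l + η * i) η) (PB (l + η * j) η) := by
    have key : ∀ i j : ℕ, i < j → Disjoint (PB (l + η * i) η) (PB (l + η * j) η) := by
      intro i j hij
      rw [Finset.disjoint_left]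
      intro p hp hp'
      have h1 := (PB_mem hp).2.2
      have h2 := (PB_mem hp').2.1
      have h3 : (i : ℝ) + 1 ≤ j := by exact_mod_cast hij
      have h4 : (l : ℝ) + η * i + η ≤ l + η * j := by nlinarith
      have h5 := Real.exp_le_exp.2 h4
      linarith
    intro i _ j _ hij
    rcases lt_or_gt_of_ne hij with h | h
    · exact key i j h
    · exact (key j i h).symm
  obtain ⟨B, hB1, hB2⟩ := fam2c hS (range I) (fun i => PB (l + η * i) η) (fun i => l + η * (i + 1)) m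
    (Real.exp (2 * l) / l) hdisj (fun i _ p hp => (PB_mem hp).1) (by
      intro i _ p hp
      obtain ⟨h1, _, h3⟩ := PB_mem hp
      have h4 : Real.log p ≤ Real.log (Real.exp (l + η * i + η)) :=
        Real.log_le_log (by exact_mod_cast h1.pos) h3
      rw [Real.log_exp] at h4
      linarith) (by
      intro i _
      have : 0 ≤ η * ((i : ℝ) + 1) := by positivity
      show (0 : ℝ) < l + η * (i + 1)
      linarith) (by
      have : ∑ i ∈ range I, (m i : ℝ) * (l + η * (i + 1)) = S := hSdef.symm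
      show 8 * ∑ i ∈ range I, (m i : ℝ) * ((l : ℝ) + η * (i + 1)) ≤ _
      rw [this]
      linarith)
  have hBS : Real.exp S * Real.exp ((2 - ε) * (Real.exp l / l)) ≤ (B.card : ℝ) := by
    refine hlow.trans (le_trans (le_of_eq ?_) hB1)
    rw [← hSdef, ← hn]
  -- a subset of the right size
  set T : ℝ := Real.exp S * Real.exp ((2 - ε) * (Real.exp l / l)) with hT
  have hT0 : 0 ≤ T := by positivity
  have hceil : ⌈T⌉₊ ≤ B.card := Nat.ceil_le.2 hBS
  obtain ⟨B', hB', hcard⟩ := Finset.exists_subset_card_eq hceil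
  refine ⟨B', n, Real.exp S, hnl, Real.one_le_exp hS0, ?_, ?_, ?_⟩
  · rw [hcard]
    exact Nat.le_ceil T
  · rw [hcard]
    exact (Nat.ceil_lt_add_one hT0).le.trans hup
  · intro b hb
    obtain ⟨k1, k2, k3, k4, k5⟩ := hB2 b (hB' hb)
    refine ⟨k1, by rw [k2, hn], ?_, ?_, ?_⟩
    · intro p hp
      obtain ⟨⟨i, _, hpi⟩, h8⟩ := k3 p hp
      refine ⟨?_, h8⟩
      have h1 := (PB_mem hpi).2.1
      have h2 : Real.exp (l : ℝ) ≤ Real.exp (l + η * i) := by
        apply Real.exp_le_exp.2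
        have : 0 ≤ η * (i : ℝ) := by positivity
        linarith
      linarith
    · rw [hSdef]
      exact k4
    · have h1 : (0 : ℝ) < b := by exact_mod_cast k1
      rw [← Real.exp_log h1]
      exact Real.exp_le_exp.2 k5

end Pool.Agent.D0H12.AB
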